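import Mathlib

set_option autoImplicit false

namespace Pool.Agent.Lib.MP_079cdc_gt

open Set Filter Topology Metric

/-- Tree-like properties of a metric space that give absolute homogeneity. -/
structure Good (X : Type) [MetricSpace X] : Prop where
  hyper : ∀ s : Set (X × ℝ), s.Nonempty → (∀ a ∈ s, ∀ b ∈ s, dist a.1 b.1 ≤ a.2 + b.2) →
    ∃ x, ∀ a ∈ s, dist x a.1 ≤ a.2
  four : ∀ x y z w : X, dist x y + dist z w ≤ max (dist x z + dist y w) (dist x w + dist y z)
  le3 : ∀ p : X, ∃ dir : X → Fin 3, ∀ u v, u ≠ p → v ≠ p → dir u = dir v →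
    dist u v < dist p u + dist p v
  ge3 : ∀ (q : X) (δ : ℝ), 0 < δ → ∃ y : Fin 3 → X, (∀ i, dist q (y i) = δ) ∧
    ∀ i j, i ≠ j → dist (y i) (y j) = 2 * δ

variable {X : Type} [MetricSpace X]

theorem Good.trans_dir (G : Good X) {q u v w : X} (h1 : dist u v < dist q u + dist q v)
    (h2 : dist v w < dist q v + dist q w) : dist u w < dist q u + dist q w := by
  have h := G.four u w q v
  rw [dist_comm u q, dist_comm w v, dist_comm w q] at h
  rcases le_max_iff.1 h with h | h <;> linarith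

theorem Good.onePoint (G : Good X) (R : Set (X × X))
    (hR : ∀ a ∈ R, ∀ b ∈ R, dist a.1 b.1 = dist a.2 b.2) (x : X) :
    ∃ y, ∀ a ∈ R, dist x a.1 = dist y a.2 := by
  rcases R.eq_empty_or_nonempty with rfl | ⟨a0, ha0⟩
  · exact ⟨x, by simp⟩
  set D : Set ℝ := {t | ∃ a ∈ R, ∃ b ∈ R, t = (dist x a.1 + dist x b.1 - dist a.1 b.1) / 2}
    with hD
  have hDne : D.Nonempty := ⟨_, a0, ha0, a0, ha0, rfl⟩
  have hD0 : ∀ t ∈ D, 0 ≤ t := by
    rintro t ⟨a, -, b, -, rfl⟩
    have := dist_triangle_left a.1 b.1 x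
    linarith
  have hbdd : BddBelow D := ⟨0, hD0⟩
  set δ := sInf D with hδ
  have hδ0 : 0 ≤ δ := le_csInf hDne hD0
  have hδle : ∀ a ∈ R, ∀ b ∈ R, dist a.1 b.1 ≤ (dist x a.1 - δ) + (dist x b.1 - δ) := by
    intro a ha b hb
    have := csInf_le hbdd (show _ ∈ D from ⟨a, ha, b, hb, rfl⟩)
    linarith
  have happrox : ∀ a ∈ R, ∀ ε > 0, ∃ b ∈ R,
      dist x a.1 + dist x b.1 - 2 * δ - 2 * ε < dist a.1 b.1 := by
    intro a ha ε hε
    obtain ⟨t, ⟨b, hb, c, hc, rfl⟩, ht⟩ := exists_lt_of_csInf_lt hDne (show δ < δ + ε by linarith)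
    have h := G.four b.1 c.1 x a.1
    rw [dist_comm b.1 x, dist_comm c.1 a.1, dist_comm b.1 a.1, dist_comm c.1 x] at h
    rcases le_max_iff.1 h with h | h
    · exact ⟨c, hc, by linarith⟩
    · exact ⟨b, hb, by linarith⟩
  obtain ⟨q, hq⟩ := G.hyper ((fun a : X × X => (a.2, dist x a.1 - δ)) '' R)
    ⟨_, a0, ha0, rfl⟩ (by
      rintro _ ⟨a, ha, rfl⟩ _ ⟨b, hb, rfl⟩
      simp only
      rw [← hR a ha b hb]
      exact hδle a ha b hb)
  have hq1 : ∀ a ∈ R, dist q a.2 ≤ dist x a.1 - δ := fun a ha => hq _ ⟨a, ha, rfl⟩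
  have hq2 : ∀ a ∈ R, dist q a.2 = dist x a.1 - δ := by
    intro a ha
    refine le_antisymm (hq1 a ha) (le_of_forall_pos_le_add fun ε hε => ?_)
    obtain ⟨b, hb, h⟩ := happrox a ha (ε / 2) (by linarith)
    have h1 := hq1 b hb
    have h2 := dist_triangle_left a.2 b.2 q
    rw [hR a ha b hb] at h
    linarith
  rcases hδ0.eq_or_lt with h0 | hpos
  · exact ⟨q, fun a ha => by rw [hq2 a ha, ← h0, sub_zero]⟩
  obtain ⟨p, hp⟩ := G.hyper (insert (x, δ) ((fun a : X × X => (a.1, dist x a.1 - δ)) '' R))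
    ⟨_, mem_insert _ _⟩ (by
      rintro _ (rfl | ⟨a, ha, rfl⟩) _ (rfl | ⟨b, hb, rfl⟩)
      · simp only [dist_self]; linarith
      · simp
      · simp [dist_comm]
      · exact hδle a ha b hb)
  have hpx : dist p x ≤ δ := hp _ (mem_insert _ _)
  have hp1 : ∀ a ∈ R, dist p a.1 ≤ dist x a.1 - δ :=
    fun a ha => hp _ (mem_insert_of_mem _ ⟨a, ha, rfl⟩)
  have hp2 : ∀ a ∈ R, dist p a.1 = dist x a.1 - δ := by
    intro a ha
    have := dist_triangle_left x a.1 p
    have := hp1 a ha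
    linarith
  have hpx2 : dist p x = δ := by
    have := dist_triangle_left x a0.1 p
    have := hp1 a0 ha0
    linarith
  obtain ⟨y, hy1, hy2⟩ := G.ge3 q δ hpos
  by_contra hcon
  push Not at hcon
  choose a ha hne using fun i => hcon (y i)
  have hlt : ∀ i, dist (y i) (a i).2 < dist q (y i) + dist q (a i).2 := by
    intro i
    have h1 := dist_triangle_left (y i) (a i).2 q
    have h2 := hq2 _ (ha i)
    have h3 := hy1 i
    rcases h1.eq_or_lt with h | h
    · exact absurd (by linarith) (hne i)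
    · exact h
  have hbq : ∀ i, 0 < dist q (a i).2 := by
    intro i
    rcases (dist_nonneg (x := q) (y := (a i).2)).eq_or_lt with h | h
    · have h' : q = (a i).2 := dist_eq_zero.1 h.symm
      have := hlt i
      rw [← h', dist_comm (y i) q, dist_self] at this
      linarith
    · exact h
  have hsep : ∀ i j, i ≠ j → ¬ dist (a i).2 (a j).2 < dist q (a i).2 + dist q (a j).2 := by
    intro i j hij hlt'
    have h1 := G.trans_dir (hlt i) hlt'
    have h2 := hlt j
    rw [dist_comm (y j), add_comm] at h2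
    have h3 := G.trans_dir h1 h2
    rw [hy2 i j hij, hy1, hy1] at h3
    linarith
  obtain ⟨dir, hdir⟩ := G.le3 p
  have hap : ∀ i, (a i).1 ≠ p := by
    intro i h
    have h1 := hp2 _ (ha i)
    have h2 := hq2 _ (ha i)
    have h3 := hbq i
    rw [h, dist_self] at h1
    rw [h] at h2
    linarith
  have hxp : x ≠ p := by
    intro h
    rw [h, dist_self] at hpx2
    linarith
  have hinj : Function.Injective (fun i => dir (a i).1) := by
    intro i j hij
    by_contra hne'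
    have h1 := hdir _ _ (hap i) (hap j) hij
    rw [hR _ (ha i) _ (ha j), hp2 _ (ha i), hp2 _ (ha j), ← hq2 _ (ha i), ← hq2 _ (ha j)] at h1
    exact hsep i j hne' h1
  obtain ⟨i, hi⟩ := (Finite.injective_iff_surjective.1 hinj) (dir x)
  have h1 := hdir _ _ hxp (hap i) hi.symm
  rw [hpx2, hp2 _ (ha i)] at h1
  linarith

theorem Good.absHom (G : Good X) (A B : Set X) (f : A ≃ᵢ B) :
    ∃ g : X ≃ᵢ X, ∀ a : A, g a = f a := by
  set 𝒮 : Set (Set (X × X)) := {R | ∀ a ∈ R, ∀ b ∈ R, dist a.1 b.1 = dist a.2 b.2} with h𝒮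
  have h0 : (range fun a : A => ((a : X), (f a : X))) ∈ 𝒮 := by
    rintro _ ⟨a, rfl⟩ _ ⟨b, rfl⟩
    simp only
    rw [← Subtype.dist_eq, ← Subtype.dist_eq, f.dist_eq]
  obtain ⟨M, hM0, hM⟩ := zorn_subset_nonempty 𝒮 (by
    intro c hc hchain _
    refine ⟨⋃₀ c, ?_, fun s hs => subset_sUnion_of_mem hs⟩
    rintro a ⟨s, hs, ha⟩ b ⟨t, ht, hb⟩
    rcases hchain.total hs ht with h | h
    · exact hc ht a (h ha) b hb
    · exact hc hs a ha b (h hb)) _ h0
  have hMS : ∀ a ∈ M, ∀ b ∈ M, dist a.1 b.1 = dist a.2 b.2 := hM.prop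
  have hins : ∀ x y, (∀ a ∈ M, dist x a.1 = dist y a.2) → (x, y) ∈ M := by
    intro x y h
    have : insert (x, y) M ∈ 𝒮 := by
      rintro a (rfl | ha) b (rfl | hb)
      · simp
      · exact h b hb
      · rw [dist_comm, dist_comm a.2]; exact h a ha
      · exact hMS a ha b hb
    exact hM.le_of_ge this (subset_insert _ _) (mem_insert _ _)
  have hl : ∀ x, ∃ y, (x, y) ∈ M := by
    intro x
    obtain ⟨y, hy⟩ := G.onePoint M hMS x
    exact ⟨y, hins x y hy⟩
  have hr : ∀ y, ∃ x, (x, y) ∈ M := by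
    intro y
    obtain ⟨x, hx⟩ := G.onePoint (Prod.swap '' M) (by
      rintro _ ⟨a, ha, rfl⟩ _ ⟨b, hb, rfl⟩
      exact (hMS a ha b hb).symm) y
    exact ⟨x, hins x y fun a ha => (hx _ ⟨a, ha, rfl⟩).symm⟩
  choose g hg using hl
  have hiso : Isometry g := Isometry.of_dist_eq fun x y => (hMS _ (hg x) _ (hg y)).symm
  have huniq : ∀ x y, (x, y) ∈ M → g x = y := by
    intro x y h
    have := hMS _ (hg x) _ h
    simp only [dist_self] at this
    exact dist_eq_zero.1 this.symm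
  have hsurj : Function.Surjective g := by
    intro y
    obtain ⟨x, hx⟩ := hr y
    exact ⟨x, huniq x y hx⟩
  refine ⟨⟨Equiv.ofBijective g ⟨hiso.injective, hsurj⟩, hiso⟩, fun a => ?_⟩
  exact huniq _ _ (hM0 ⟨a, rfl⟩)

theorem Good.complete (G : Good X) : CompleteSpace X := by
  refine Metric.complete_of_cauchySeq_tendsto fun u hu => ?_
  obtain ⟨b, hb0, hb, hlim⟩ := cauchySeq_iff_le_tendsto_0.1 hu
  obtain ⟨x, hx⟩ := G.hyper (range fun n => (u n, b n)) (range_nonempty _) (by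
    rintro _ ⟨n, rfl⟩ _ ⟨m, rfl⟩
    simp only
    rcases le_total n m with h | h
    · have := hb n m n le_rfl h
      have := hb0 m
      linarith
    · have := hb n m m h le_rfl
      have := hb0 n
      linarith)
  refine ⟨x, tendsto_iff_dist_tendsto_zero.2 (squeeze_zero (fun _ => dist_nonneg) ?_ hlim)⟩
  intro n
  rw [dist_comm]
  exact hx _ ⟨n, rfl⟩

theorem Good.seg (G : Good X) (x y : X) :
    ∃ t : Set X, x ∈ t ∧ y ∈ t ∧ IsPreconnected t ∧ ∀ z ∈ t, dist x z ≤ dist x y := by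
  have h : ∀ t : ℝ, ∃ z, t ∈ Icc 0 (dist x y) → dist z x ≤ t ∧ dist z y ≤ dist x y - t := by
    intro t
    by_cases ht : t ∈ Icc 0 (dist x y)
    · obtain ⟨z, hz⟩ := G.hyper {(x, t), (y, dist x y - t)} (by simp) (by
        rintro _ (rfl | rfl) _ (rfl | rfl)
        · simp only [dist_self]; linarith [ht.1]
        · simp
        · simp [dist_comm]
        · simp only [dist_self]; linarith [ht.2])
      exact ⟨z, fun _ => ⟨hz (x, t) (by simp), hz (y, dist x y - t) (by simp)⟩⟩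
    · exact ⟨x, fun h => absurd h ht⟩
  choose z hz using h
  have hlip : LipschitzOnWith 1 z (Icc 0 (dist x y)) := by
    refine LipschitzOnWith.of_dist_le_mul fun s hs t ht => ?_
    have h1 := G.four x y (z s) (z t)
    obtain ⟨a1, a2⟩ := hz s hs
    obtain ⟨b1, b2⟩ := hz t ht
    rw [dist_comm x (z s), dist_comm y (z t), dist_comm x (z t), dist_comm y (z s)] at h1
    have e1 := le_abs_self (s - t)
    have e2 := neg_abs_le (s - t)
    rw [Real.dist_eq]
    simp only [NNReal.coe_one, one_mul]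
    rcases le_max_iff.1 h1 with h | h <;> linarith
  have m0 : (0 : ℝ) ∈ Icc 0 (dist x y) := ⟨le_rfl, dist_nonneg⟩
  have m1 : dist x y ∈ Icc 0 (dist x y) := ⟨dist_nonneg, le_rfl⟩
  refine ⟨z '' Icc 0 (dist x y), ⟨0, m0, dist_le_zero.1 (hz 0 m0).1⟩,
    ⟨_, m1, dist_le_zero.1 (by simpa using (hz _ m1).2)⟩,
    isPreconnected_Icc.image _ hlip.continuousOn, ?_⟩
  rintro _ ⟨t, ht, rfl⟩
  rw [dist_comm]
  exact (hz t ht).1.trans ht.2

theorem Good.preconnected_ball (G : Good X) (x : X) (r : ℝ) : IsPreconnected (ball x r) := by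
  refine isPreconnected_of_forall x fun y hy => ?_
  obtain ⟨t, hx, hyt, hc, ht⟩ := G.seg x y
  refine ⟨t, fun z hz => ?_, hx, hyt, hc⟩
  rw [mem_ball, dist_comm] at hy ⊢
  exact (ht z hz).trans_lt hy

theorem Good.connected (G : Good X) [Nonempty X] : ConnectedSpace X := by
  obtain ⟨x⟩ := ‹Nonempty X›
  have : IsPreconnected (univ : Set X) := by
    refine isPreconnected_of_forall x fun y _ => ?_
    obtain ⟨t, hx, hyt, hc, -⟩ := G.seg x y
    exact ⟨t, subset_univ _, hx, hyt, hc⟩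
  have : PreconnectedSpace X := ⟨this⟩
  exact ⟨‹_›⟩

theorem Good.locConnected (G : Good X) : LocallyConnectedSpace X := by
  refine locallyConnectedSpace_iff_connected_subsets.2 fun x U hU => ?_
  obtain ⟨r, hr, h⟩ := Metric.mem_nhds_iff.1 hU
  exact ⟨ball x r, ball_mem_nhds x hr, G.preconnected_ball x r, h⟩

end Pool.Agent.Lib.MP_079cdc_gt
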