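import Pool.Agent.Lib.MP_079cdc_gt.Abstract

set_option autoImplicit false

namespace Pool.Agent.Lib.MP_079cdc_gt

open Set Filter Topology Metric

/-- A point of the complete real tree of valence three: a height and a well-ordered set of
reals below that height. -/
@[ext] structure Pt where
  h : ℝ
  S : Set ℝ
  wf : S.IsWF
  lt : ∀ t ∈ S, t < h

def Ag (P Q : Pt) (t : ℝ) : Prop := t ≤ P.h ∧ t ≤ Q.h ∧ ∀ u < t, (u ∈ P.S ↔ u ∈ Q.S)

noncomputable def sg (P Q : Pt) : ℝ := sSup {t | Ag P Q t}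

theorem wf_bdd {S : Set ℝ} (h : S.IsWF) : ∃ b, ∀ u ∈ S, b ≤ u := by
  rcases S.eq_empty_or_nonempty with rfl | hne
  · exact ⟨0, by simp⟩
  · exact ⟨h.min hne, fun u hu => h.min_le hne hu⟩

theorem ag_ne (P Q : Pt) : {t | Ag P Q t}.Nonempty := by
  obtain ⟨b, hb⟩ := wf_bdd (P.wf.union Q.wf)
  refine ⟨min b (min P.h Q.h), by simp, by simp, fun u hu => ?_⟩
  have hu' : u < b := hu.trans_le (min_le_left _ _)
  constructor
  · intro h; exact absurd (hb u (Or.inl h)) (not_le.2 hu')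
  · intro h; exact absurd (hb u (Or.inr h)) (not_le.2 hu')

theorem ag_bdd (P Q : Pt) : BddAbove {t | Ag P Q t} := ⟨P.h, fun _ h => h.1⟩

theorem le_sg {P Q : Pt} {t : ℝ} (h : Ag P Q t) : t ≤ sg P Q := le_csSup (ag_bdd P Q) h

theorem ag_sg (P Q : Pt) : Ag P Q (sg P Q) := by
  refine ⟨csSup_le (ag_ne P Q) fun _ h => h.1, csSup_le (ag_ne P Q) fun _ h => h.2.1, ?_⟩
  intro u hu
  obtain ⟨t, ht, hut⟩ := exists_lt_of_lt_csSup (ag_ne P Q) hu
  exact ht.2.2 u hut

theorem sg_le_left (P Q : Pt) : sg P Q ≤ P.h := (ag_sg P Q).1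
theorem sg_le_right (P Q : Pt) : sg P Q ≤ Q.h := (ag_sg P Q).2.1
theorem mem_iff_of_lt {P Q : Pt} {u : ℝ} (h : u < sg P Q) : u ∈ P.S ↔ u ∈ Q.S :=
  (ag_sg P Q).2.2 u h

theorem sg_symm (P Q : Pt) : sg P Q = sg Q P := by
  have : ∀ P Q : Pt, sg P Q ≤ sg Q P := fun P Q =>
    le_sg ⟨sg_le_right P Q, sg_le_left P Q, fun u hu => (mem_iff_of_lt hu).symm⟩
  exact le_antisymm (this P Q) (this Q P)

theorem sg_self (P : Pt) : sg P P = P.h :=
  le_antisymm (sg_le_left P P) (le_sg ⟨le_rfl, le_rfl, fun _ _ => Iff.rfl⟩)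

theorem sg_ultra (P Q R : Pt) : min (sg P Q) (sg Q R) ≤ sg P R :=
  le_sg ⟨(min_le_left _ _).trans (sg_le_left _ _), (min_le_right _ _).trans (sg_le_right _ _),
    fun _ hu => (mem_iff_of_lt (hu.trans_le (min_le_left _ _))).trans
      (mem_iff_of_lt (hu.trans_le (min_le_right _ _)))⟩

theorem eq_of_sg {P Q : Pt} (h1 : sg P Q = P.h) (h2 : sg P Q = Q.h) : P = Q := by
  refine Pt.ext (h1.symm.trans h2) (Set.ext fun u => ⟨fun h => ?_, fun h => ?_⟩)
  · exact (mem_iff_of_lt (h1 ▸ P.lt u h)).1 h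
  · exact (mem_iff_of_lt (h2 ▸ Q.lt u h)).2 h

noncomputable instance instMetricPt : MetricSpace Pt where
  dist P Q := P.h + Q.h - 2 * sg P Q
  dist_self P := by rw [sg_self]; ring
  dist_comm P Q := by rw [sg_symm]; ring
  dist_triangle P Q R := by
    have h := sg_ultra P Q R
    have h1 := sg_le_right P Q
    have h2 := sg_le_left Q R
    rcases min_le_iff.1 h with h | h <;> linarith
  eq_of_dist_eq_zero := by
    intro P Q h
    have h1 := sg_le_left P Q
    have h2 := sg_le_right P Q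
    have h' : P.h + Q.h - 2 * sg P Q = 0 := h
    exact eq_of_sg (by linarith) (by linarith)

theorem dist_def (P Q : Pt) : dist P Q = P.h + Q.h - 2 * sg P Q := rfl

theorem four_pt (x y z w : Pt) :
    dist x y + dist z w ≤ max (dist x z + dist y w) (dist x w + dist y z) := by
  by_contra hc
  rw [not_le, max_lt_iff] at hc
  obtain ⟨h1, h2⟩ := hc
  simp only [dist_def] at h1 h2
  have a1 := sg_ultra x z y
  have a2 := sg_ultra x w y
  have a3 := sg_ultra z x w
  have a4 := sg_ultra z y w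
  rw [sg_symm z y] at a1 a4
  rw [sg_symm w y] at a2
  rw [sg_symm z x] at a3
  rcases min_le_iff.1 a1 with a1 | a1 <;> rcases min_le_iff.1 a2 with a2 | a2 <;>
    rcases min_le_iff.1 a3 with a3 | a3 <;> rcases min_le_iff.1 a4 with a4 | a4 <;> linarith

theorem hyper_pt (s : Set (Pt × ℝ)) (hne : s.Nonempty)
    (hs : ∀ a ∈ s, ∀ b ∈ s, dist a.1 b.1 ≤ a.2 + b.2) : ∃ x : Pt, ∀ a ∈ s, dist x a.1 ≤ a.2 := by
  obtain ⟨a0, ha0⟩ := hne
  set m : Pt × ℝ → ℝ := fun a => a.1.h - a.2 with hm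
  have hkey : ∀ a ∈ s, ∀ b ∈ s, m a + m b ≤ 2 * sg a.1 b.1 := by
    intro a ha b hb
    have := hs a ha b hb
    rw [dist_def] at this
    simp only [hm]
    linarith
  have hmin : ∀ a ∈ s, ∀ b ∈ s, ∀ u, u < m a → u < m b → (u ∈ a.1.S ↔ u ∈ b.1.S) := by
    intro a ha b hb u h1 h2
    have := hkey a ha b hb
    exact mem_iff_of_lt (by linarith)
  have hbdd : BddAbove (m '' s) := by
    refine ⟨2 * a0.1.h - m a0, ?_⟩
    rintro _ ⟨a, ha, rfl⟩
    have := hkey a ha a0 ha0
    have := sg_le_right a.1 a0.1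
    linarith
  have hne' : (m '' s).Nonempty := ⟨_, a0, ha0, rfl⟩
  set M := sSup (m '' s) with hM
  have hle : ∀ a ∈ s, m a ≤ M := fun a ha => le_csSup hbdd ⟨a, ha, rfl⟩
  set S : Set ℝ := {u | ∃ a ∈ s, u < m a ∧ u ∈ a.1.S} with hS
  have hSiff : ∀ a ∈ s, ∀ u, u < m a → (u ∈ S ↔ u ∈ a.1.S) := by
    intro a ha u hu
    constructor
    · rintro ⟨b, hb, h1, h2⟩
      exact (hmin a ha b hb u hu h1).2 h2
    · intro h
      exact ⟨a, ha, hu, h⟩
  have hwf : S.IsWF := by
    rw [Set.isWF_iff_no_descending_seq]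
    intro f hf hfS
    obtain ⟨a, ha, h1, -⟩ := hfS 0
    refine Set.isWF_iff_no_descending_seq.1 a.1.wf f hf fun n => ?_
    exact (hSiff a ha _ ((hf.antitone (Nat.zero_le n)).trans_lt h1)).1 (hfS n)
  let P : Pt := ⟨M, S, hwf, by
    rintro u ⟨a, ha, h1, -⟩
    exact h1.trans_le (hle a ha)⟩
  have hP : ∀ a ∈ s, m a ≤ sg P a.1 := by
    intro a ha
    have h1 := hkey a ha a ha
    rw [sg_self] at h1
    exact le_sg ⟨hle a ha, by linarith, fun u hu => hSiff a ha u hu⟩
  refine ⟨P, fun a ha => ?_⟩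
  have h3 : M ≤ 2 * sg P a.1 - m a := by
    refine csSup_le hne' ?_
    rintro _ ⟨b, hb, rfl⟩
    have h1 := sg_ultra P b.1 a.1
    have h2 := hP a ha
    have h4 := hP b hb
    have h5 := hkey b hb a ha
    rcases le_total (m b) (m a) with h | h
    · linarith
    · rcases min_le_iff.1 h1 with h1 | h1 <;> linarith
  rw [dist_def]
  simp only [hm] at h3
  change M + a.1.h - 2 * sg P a.1 ≤ a.2
  linarith

open Classical in
theorem le3_pt (p : Pt) : ∃ dir : Pt → Fin 3, ∀ u v, u ≠ p → v ≠ p → dir u = dir v →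
    dist u v < dist p u + dist p v := by
  refine ⟨fun u => if sg p u < p.h then 0 else if p.h ∈ u.S then 1 else 2, ?_⟩
  intro u v hu hv hd
  simp only [dist_def]
  have hup : ∀ u v : Pt, u ≠ p → v ≠ p → ¬ sg p u < p.h → ¬ sg p v < p.h →
      (p.h ∈ u.S ↔ p.h ∈ v.S) → p.h < sg u v := by
    intro u v hu hv h1 h2 h3
    have e1 : sg p u = p.h := le_antisymm (sg_le_left _ _) (not_lt.1 h1)
    have e2 : sg p v = p.h := le_antisymm (sg_le_left _ _) (not_lt.1 h2)
    have l1 : p.h < u.h := by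
      rcases (sg_le_right p u).eq_or_lt with h | h
      · exact absurd (eq_of_sg e1 h).symm hu
      · exact e1 ▸ h
    have l2 : p.h < v.h := by
      rcases (sg_le_right p v).eq_or_lt with h | h
      · exact absurd (eq_of_sg e2 h).symm hv
      · exact e2 ▸ h
    have hb : ∃ b, p.h < b ∧ ∀ t ∈ u.S ∪ v.S, p.h < t → b ≤ t := by
      have hw : ((u.S ∪ v.S) ∩ Ioi p.h).IsWF := (u.wf.union v.wf).mono inter_subset_left
      rcases ((u.S ∪ v.S) ∩ Ioi p.h).eq_empty_or_nonempty with he | hne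
      · refine ⟨p.h + 1, by linarith, fun t ht hpt => ?_⟩
        exact absurd (show t ∈ (u.S ∪ v.S) ∩ Ioi p.h from ⟨ht, hpt⟩) (by simp [he])
      · exact ⟨hw.min hne, (hw.min_mem hne).2, fun t ht hpt => hw.min_le hne ⟨ht, hpt⟩⟩
    obtain ⟨b, hb1, hb2⟩ := hb
    refine lt_of_lt_of_le (show p.h < min b (min u.h v.h) by simp [hb1, l1, l2])
      (le_sg ⟨by simp, by simp, fun t ht => ?_⟩)
    have htb : t < b := ht.trans_le (min_le_left _ _)
    rcases lt_trichotomy t p.h with h | h | h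
    · exact (mem_iff_of_lt (e1.symm ▸ h)).symm.trans (mem_iff_of_lt (e2.symm ▸ h))
    · exact h ▸ h3
    · constructor
      · intro h'; exact absurd (hb2 t (Or.inl h') h) (not_le.2 htb)
      · intro h'; exact absurd (hb2 t (Or.inr h') h) (not_le.2 htb)
  have g1 := sg_le_left p u
  have g2 := sg_le_left p v
  by_cases h1 : sg p u < p.h <;> by_cases h2 : sg p v < p.h
  · have := sg_ultra u p v
    rw [sg_symm u p] at this
    rcases min_le_iff.1 this with h | h <;> linarith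
  · simp only [h1, h2, if_true, if_false] at hd
    split_ifs at hd <;> simp at hd
  · simp only [h1, h2, if_true, if_false] at hd
    split_ifs at hd <;> simp at hd
  · have := hup u v hu hv h1 h2 (by
      simp only [h1, h2, if_false] at hd
      by_cases a : p.h ∈ u.S <;> by_cases b : p.h ∈ v.S <;> simp [a, b] at hd ⊢)
    linarith

/-- Move to height `t`, forgetting the jumps at or above `t`. -/
def cut (q : Pt) (t : ℝ) : Pt :=
  ⟨t, q.S ∩ Iio t, q.wf.mono inter_subset_left, fun _ h => h.2⟩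

/-- Move up by `δ` after a jump at the current height. -/
def jump (q : Pt) (δ : ℝ) (hδ : 0 < δ) : Pt :=
  ⟨q.h + δ, q.S ∪ {q.h}, q.wf.union (finite_singleton _).isWF, by
    rintro t (h | h)
    · linarith [q.lt t h]
    · rw [mem_singleton_iff.1 h]; linarith⟩

theorem sg_eq {P Q : Pt} {t : ℝ} (h : Ag P Q t)
    (h' : t = P.h ∨ t = Q.h ∨ ¬ (t ∈ P.S ↔ t ∈ Q.S)) : sg P Q = t := by
  refine le_antisymm ?_ (le_sg h)
  rcases h' with h' | h' | h'
  · exact h' ▸ sg_le_left P Q
  · exact h' ▸ sg_le_right P Q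
  · by_contra hc
    exact h' (mem_iff_of_lt (not_le.1 hc))

theorem ge3_pt (q : Pt) (δ : ℝ) (hδ : 0 < δ) : ∃ y : Fin 3 → Pt, (∀ i, dist q (y i) = δ) ∧
    ∀ i j, i ≠ j → dist (y i) (y j) = 2 * δ := by
  have hq : q.h ∉ q.S := fun h => lt_irrefl _ (q.lt _ h)
  have s0 : sg q (cut q (q.h - δ)) = q.h - δ :=
    sg_eq ⟨by linarith, le_rfl, fun u hu => by simp [cut, hu]⟩ (Or.inr (Or.inl rfl))
  have s1 : sg q (cut q (q.h + δ)) = q.h :=
    sg_eq ⟨le_rfl, by simp [cut, hδ.le], fun u hu => by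
      simp [cut, show u < q.h + δ by linarith]⟩ (Or.inl rfl)
  have s2 : sg q (jump q δ hδ) = q.h :=
    sg_eq ⟨le_rfl, by simp [jump, hδ.le], fun u hu => by simp [jump, hu.ne]⟩ (Or.inl rfl)
  have s01 : sg (cut q (q.h - δ)) (cut q (q.h + δ)) = q.h - δ :=
    sg_eq ⟨le_rfl, by simp only [cut]; linarith, fun u hu => by
      simp [cut, hu, show u < q.h + δ by linarith]⟩ (Or.inl rfl)
  have s02 : sg (cut q (q.h - δ)) (jump q δ hδ) = q.h - δ :=
    sg_eq ⟨le_rfl, by simp only [jump]; linarith, fun u hu => by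
      simp [cut, jump, hu, show u ≠ q.h by linarith]⟩ (Or.inl rfl)
  have s12 : sg (cut q (q.h + δ)) (jump q δ hδ) = q.h :=
    sg_eq ⟨by simp [cut, hδ.le], by simp [jump, hδ.le], fun u hu => by
      simp [cut, jump, hu.ne, show u < q.h + δ by linarith]⟩
      (Or.inr (Or.inr (by simp [cut, jump, hq])))
  have d01 : dist (cut q (q.h - δ)) (cut q (q.h + δ)) = 2 * δ := by
    rw [dist_def, s01]; simp only [cut]; ring
  have d02 : dist (cut q (q.h - δ)) (jump q δ hδ) = 2 * δ := by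
    rw [dist_def, s02]; simp only [cut, jump]; ring
  have d12 : dist (cut q (q.h + δ)) (jump q δ hδ) = 2 * δ := by
    rw [dist_def, s12]; simp only [cut, jump]; ring
  refine ⟨![cut q (q.h - δ), cut q (q.h + δ), jump q δ hδ], ?_, ?_⟩
  · intro i
    fin_cases i
    · simp only [Fin.zero_eta, Matrix.cons_val_zero, dist_def, s0]; simp only [cut]; ring
    · simp only [Fin.mk_one, Matrix.cons_val_one, Matrix.cons_val_zero, dist_def, s1]
      simp only [cut]; ring
    · simp only [Fin.reduceFinMk, Matrix.cons_val, dist_def, s2]; simp only [jump]; ring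
  · intro i j hij
    fin_cases i <;> fin_cases j <;>
      first
      | exact absurd rfl hij
      | exact d01
      | exact d02
      | exact d12
      | exact (dist_comm _ _).trans d01
      | exact (dist_comm _ _).trans d02
      | exact (dist_comm _ _).trans d12

theorem good_pt : Good Pt := ⟨hyper_pt, four_pt, le3_pt, ge3_pt⟩

/-- The point at height `t` with no jumps. -/
def base (t : ℝ) : Pt := ⟨t, ∅, isWF_empty, by simp⟩

instance instNonemptyPt : Nonempty Pt := ⟨base 0⟩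

theorem not_locCompact : ¬ LocallyCompactSpace Pt := by
  intro hlc
  obtain ⟨K, hK, hK0⟩ := exists_compact_mem_nhds (base 0)
  obtain ⟨r, hr, hrK⟩ := Metric.mem_nhds_iff.1 hK0
  have hr4 : 0 < r / 4 := by linarith
  let t : ℕ → ℝ := fun n => r / 4 * (1 / ((n : ℝ) + 1))
  have ht0 : ∀ n, 0 < t n := fun n => by positivity
  have ht1 : ∀ n, t n ≤ r / 4 := fun n => by
    have : 1 / ((n : ℝ) + 1) ≤ 1 := by
      rw [div_le_one (by positivity)]; linarith [Nat.cast_nonneg (α := ℝ) n]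
    simpa [t] using mul_le_of_le_one_right hr4.le this
  have hanti : StrictAnti t := by
    intro n m hnm
    have : (n : ℝ) < m := Nat.cast_lt.2 hnm
    exact mul_lt_mul_of_pos_left (one_div_lt_one_div_of_lt (by positivity) (by linarith)) hr4
  let y : ℕ → Pt := fun n => jump (base (t n)) (r / 4) hr4
  have hy : ∀ n, y n ∈ K := by
    intro n
    apply hrK
    rw [mem_ball, dist_comm, dist_def]
    have : sg (base 0) (y n) = 0 :=
      sg_eq ⟨le_rfl, by simp only [y, jump, base]; linarith [ht0 n], fun u hu => by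
        simp [y, jump, base, show u ≠ t n by linarith [ht0 n]]⟩ (Or.inl rfl)
    rw [this]
    simp only [y, jump, base]
    linarith [ht1 n]
  have hsep : ∀ n m, n < m → r / 4 ≤ dist (y n) (y m) := by
    intro n m hnm
    have h1 := hanti hnm
    have : sg (y n) (y m) ≤ t m := by
      by_contra hc
      have := mem_iff_of_lt (not_le.1 hc)
      simp [y, jump, base, h1.ne] at this
    rw [dist_def]
    have e1 : (y n).h = t n + r / 4 := rfl
    have e2 : (y m).h = t m + r / 4 := rfl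
    linarith
  obtain ⟨a, -, φ, hφ, hlim⟩ := hK.tendsto_subseq hy
  obtain ⟨N, hN⟩ := Metric.cauchySeq_iff.1 hlim.cauchySeq _ hr4
  have := hN N le_rfl (N + 1) (Nat.le_succ N)
  exact absurd this (not_lt.2 (hsep _ _ (hφ (Nat.lt_succ_self N))))

end Pool.Agent.Lib.MP_079cdc_gt
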